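import Pool.Agent.Y243.MRank.Transfer
import Pool.Agent.TH140.MR.Final
import Pool.Agent.TH140.MR.Cube3Final
import Pool.Agent.TH140.MR.Cubic

/-!
# The bounds
-/

set_option autoImplicit false

namespace Pool.Agent.Y243.MRank

open Pool.Agent.TH140.MR

universe u

theorem cubic_lower_infinite (K : Type u) [Field K] [Infinite K] (n : ℕ) :
    (n : ℝ) ^ 2 / 3 ≤ (maxRank K (fun _ : Fin 3 => n) : ℝ) := by
  rcases Nat.eq_zero_or_pos n with rfl | hn
  · simp
  · have h1 := prod_le_maxRank_mul_infinite (K := K) (fun _ : Fin 3 => n)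
    simp only [Finset.prod_const, Finset.sum_const, Finset.card_univ, Fintype.card_fin,
      smul_eq_mul] at h1
    have h2 : (n : ℝ) ^ 3 ≤ (maxRank K (fun _ : Fin 3 => n) : ℝ) * (3 * n) := by exact_mod_cast h1
    have h3 : (0 : ℝ) < n := by exact_mod_cast hn
    have h4 : (n : ℝ) ^ 2 * n ≤ (3 * (maxRank K (fun _ : Fin 3 => n) : ℝ)) * n := by
      nlinarith
    have h5 := le_of_mul_le_mul_right h4 h3
    linarith

theorem maxRank_lower_infinite {d : ℕ} (hd : 1 ≤ d) (K : Type u) [Field K] [Infinite K]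
    (n : Fin d → ℕ) (hn : ∀ i, 0 < n i) :
    (∏ i, (n i : ℝ)) / ∑ i, (n i : ℝ) ≤ maxRank K n := by
  have : NeZero d := ⟨by omega⟩
  have hS : (0 : ℝ) < ∑ i, (n i : ℝ) :=
    Finset.sum_pos (fun i _ => by exact_mod_cast hn i) ⟨⟨0, by omega⟩, Finset.mem_univ _⟩
  rw [div_le_iff₀ hS]
  exact_mod_cast prod_le_maxRank_mul_infinite (K := K) n

theorem cube_upper (K : Type u) [Field K] [IsAlgClosed K] [CharZero K] (n : ℕ) :
    maxRank K (fun _ : Fin 3 => n) ≤ 3 * ((n + 2) / 3) ^ 2 + 9 * ((n + 2) / 3) :=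
  (maxRank_le_complex K _).trans (maxRank_cube_complex n ((n + 2) / 3) (by omega))

theorem upper (K : Type u) [Field K] [IsAlgClosed K] [CharZero K] {d : ℕ} (hd : 3 ≤ d)
    (n : Fin d → ℕ) (m : ℕ) (hm : 0 < m) (hn : ∀ i, m ≤ n i) :
    (maxRank K n : ℝ) ≤ (1 + (2 * d + 3) * 3 ^ (d + 2) / (m : ℝ) ^ ((1 : ℝ) / 3)) *
      ((∏ i, (n i : ℝ)) / ∑ i, (n i : ℝ)) := by
  have : NeZero d := ⟨by omega⟩
  have h1 : (maxRank K n : ℝ) ≤ (maxRank ℂ n : ℝ) := by exact_mod_cast maxRank_le_complex K n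
  exact h1.trans (maxRank_upper ℂ hd n m hm hn)

end Pool.Agent.Y243.MRank
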