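import Mathlib
import Pool.Agent.W552.Emb
import Pool.Agent.TH140.MR.Lower

/-!
# The maximal rank of tensors over general fields

* over an algebraically closed field of characteristic zero the maximal rank is at most the
  maximal rank over the complex numbers (Nullstellensatz);
* over every infinite field the parameter count gives the lower bound.
-/

set_option autoImplicit false

namespace Pool.Agent.Y243.MRank

open MvPolynomial Pool.Agent.TH140.MR

universe u

/-- Decompositions of all complex tensors of a format give decompositions over all algebraically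
closed fields of characteristic zero. -/
theorem transfer {K : Type u} [Field K] [IsAlgClosed K] [CharZero K] {ι : Type} [Fintype ι]
    {α : ι → Type} [∀ i, Fintype (α i)] {N : ℕ}
    (h : ∀ T : (∀ i, α i) → ℂ, RankLE N T) (T : (∀ i, α i) → K) : RankLE N T := by
  classical
  obtain ⟨F, σ, hF⟩ := Pool.Agent.W552.exists_subfield_hom (K := K) (Set.range T)
    (Set.countable_range T)
  let T' : (∀ i, α i) → F := fun x => ⟨T x, hF ⟨x, rfl⟩⟩
  let f : (∀ i, α i) → MvPolynomial (Fin N × Σ i, α i) F := fun x =>
    ∑ k, ∏ i, X (k, ⟨i, x i⟩) - C (T' x)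
  let I : Ideal (MvPolynomial (Fin N × Σ i, α i) F) := Ideal.span (Set.range f)
  have hI : I ≠ ⊤ := by
    intro htop
    obtain ⟨v, hv⟩ := h (fun x => σ (T' x))
    have h1 : ∀ p ∈ I, eval₂ σ (fun s : Fin N × Σ i, α i => v s.1 s.2.1 s.2.2) p = 0 := by
      intro p hp
      induction hp using Submodule.span_induction with
      | mem p hp =>
        obtain ⟨x, rfl⟩ := hp
        have h2 := congrFun hv x
        simp only [f, eval₂_sub, eval₂_C]
        rw [h2, sub_eq_zero]
        simp [eval₂_sum, eval₂_prod]
      | zero => simp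
      | add p q _ _ hp hq => rw [eval₂_add, hp, hq, add_zero]
      | smul a p _ hp => rw [smul_eq_mul, eval₂_mul, hp, mul_zero]
    have h3 := h1 1 (by rw [htop]; trivial)
    rw [eval₂_one] at h3
    exact one_ne_zero h3
  have hne : (zeroLocus K I).Nonempty := by
    by_contra hcon
    rw [Set.not_nonempty_iff_eq_empty] at hcon
    have h1 := vanishingIdeal_zeroLocus_eq_radical (k := F) (K := K) I
    rw [hcon, vanishingIdeal_empty] at h1
    exact hI (Ideal.radical_eq_top.1 h1.symm)
  obtain ⟨z, hz⟩ := hne
  refine ⟨fun k i a => z (k, ⟨i, a⟩), ?_⟩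
  funext x
  have h1 := hz (f x) (Ideal.subset_span ⟨x, rfl⟩)
  simp only [f, map_sub, map_sum, map_prod, aeval_X, aeval_C] at h1
  rw [sub_eq_zero] at h1
  exact h1.symm

theorem maxRank_le_complex (K : Type u) [Field K] [IsAlgClosed K] [CharZero K] {d : ℕ}
    [NeZero d] (n : Fin d → ℕ) : maxRank K n ≤ maxRank ℂ n :=
  maxRank_le fun T => transfer (fun T' => rankLE_maxRank T') T

/-- The parameter count over an infinite field. -/
theorem le_of_all_rankLE_infinite {K : Type u} [Field K] [Infinite K] {d : ℕ} (n : Fin d → ℕ)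
    (N : ℕ) (h : ∀ T : (∀ i, Fin (n i)) → K, RankLE N T) : ∏ i, n i ≤ N * ∑ i, n i := by
  classical
  by_contra hcon
  push Not at hcon
  let F : (∀ i, Fin (n i)) → MvPolynomial (Fin N × Σ i, Fin (n i)) K := fun x =>
    ∑ k, ∏ i, X (k, ⟨i, x i⟩)
  have hdep : ¬ AlgebraicIndependent K F := by
    intro hind
    have h1 := hind.lift_cardinalMk_le_trdeg
    rw [MvPolynomial.trdeg_of_isDomain] at h1
    have h2 : Fintype.card (∀ i, Fin (n i)) ≤ Fintype.card (Fin N × Σ i, Fin (n i)) := by
      simp only [Cardinal.mk_fintype, Cardinal.lift_natCast, Nat.cast_le] at h1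
      exact h1
    rw [Fintype.card_pi, Fintype.card_prod, Fintype.card_sigma] at h2
    simp only [Fintype.card_fin] at h2
    exact absurd h2 (not_le.2 hcon)
  rw [algebraicIndependent_iff] at hdep
  push Not at hdep
  obtain ⟨P, hP, hP0⟩ := hdep
  obtain ⟨T, hT⟩ : ∃ T : (∀ i, Fin (n i)) → K, eval T P ≠ 0 := by
    by_contra hall
    push Not at hall
    exact hP0 (MvPolynomial.funext fun T => by rw [hall T, map_zero])
  obtain ⟨v, hv⟩ := h T
  apply hT
  have h1 := congrArg (aeval (fun s : Fin N × Σ i, Fin (n i) => v s.1 s.2.1 s.2.2)) hP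
  rw [map_zero, comp_aeval_apply] at h1
  rw [← h1, hv]
  change eval _ P = _
  rw [aeval_def, eval]
  simp [F, map_sum, map_prod]

theorem prod_le_maxRank_mul_infinite {K : Type u} [Field K] [Infinite K] {d : ℕ} [NeZero d]
    (n : Fin d → ℕ) : ∏ i, n i ≤ maxRank K n * ∑ i, n i :=
  le_of_all_rankLE_infinite n _ fun T => rankLE_maxRank T

end Pool.Agent.Y243.MRank
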